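import Pool.Agent.Helper35.GL.Stm

/-! Algebraic independence over `ℚ(S)` gives rank. -/

set_option autoImplicit false

namespace Pool.Agent.Helper22.GL

open Set Pool.Agent.Helper35.EM

/-- Algebraic independence over `ℚ(S)` gives rank; no finiteness is needed. -/
theorem gd' (S : Set ℂ) (r : ℕ) (g : Fin r → ℂ)
    (h : AlgebraicIndependent (IntermediateField.adjoin ℚ S) g) :
    M.eRk S + (r : ℕ∞) ≤ M.eRk (S ∪ range g) := by
  obtain ⟨I, hI⟩ := M.exists_isBasis S (by simp)
  have hind : AlgebraicIndependent ℚ (fun x : I => (x : ℂ)) := hI.indep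
  have hIS : range (fun x : I => (x : ℂ)) ⊆
      range (algebraMap (IntermediateField.adjoin ℚ S) ℂ) := by
    rintro _ ⟨x, rfl⟩
    exact ⟨⟨x, IntermediateField.subset_adjoin ℚ S (hI.subset x.2)⟩, rfl⟩
  have h1 : AlgebraicIndependent ℚ (Sum.elim g (fun x : I => (x : ℂ))) :=
    hind.sumElim_of_tower hIS h
  have hinj := h1.injective
  have h2 : M.Indep (range (Sum.elim g (fun x : I => (x : ℂ)))) :=
    (algebraicIndependent_subtype_range hinj).2 h1
  have hrI : range (fun x : I => (x : ℂ)) = I := by simp
  rw [Sum.elim_range, hrI] at h2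
  have hdisj : Disjoint (range g) I := by
    rw [Set.disjoint_left]
    rintro _ ⟨i, rfl⟩ hx
    have h3 : (Sum.inl i : Fin r ⊕ I) = Sum.inr ⟨g i, hx⟩ := hinj rfl
    exact absurd h3 (by simp)
  have hgc : (range g).encard = (r : ℕ∞) := by
    have hg : Function.Injective g := h.injective
    rw [← Set.image_univ, hg.encard_image, Set.encard_univ]
    simp
  calc M.eRk S + (r : ℕ∞) = I.encard + (range g).encard := by
        rw [hI.encard_eq_eRk, hgc]
    _ = (range g ∪ I).encard := by rw [Set.encard_union_eq hdisj, add_comm]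
    _ = M.eRk (range g ∪ I) := h2.eRk_eq_encard.symm
    _ ≤ M.eRk (S ∪ range g) := M.eRk_mono
        (union_subset subset_union_right (hI.subset.trans subset_union_left))

/-- Package GD. -/
theorem gd : Pool.Agent.Helper35.GL.S_GD := fun S _ r g h => gd' S r g h

end Pool.Agent.Helper22.GL
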